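import Pool.Agent.TH511.HLC.LevCells

/-!
# Levels of arrangements of lines that split into families of envelope lines

The lines are `y = a l * x + B l`, `l : Fin n`. Definitions: in
`Pool/Agent/H189R2/Lev/Lines.lean`

* `ht a B l x = a l * x + B l`, the height of the line `l` above `x`;

in `Pool/Agent/Results/MP_a08d0a_co/SmoothedLevel.lean`

* `Simple a B`: no two of the lines coincide and no three pass through a common point,
* `level a B k x`: the height of the `(k+1)`-st lowest line above `x`,
* `psi a B k`: the number of abscissae near which the `k`-level does not follow a single line, i.e.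
  the number of vertices of the `k`-level;

in `Pool/Agent/TH511/HLC/Lev.lean` and `Pool/Agent/TH511/HLC/LevCells.lean`

* `OnEnvelope a B F i`: above some `x`, the line `i` is strictly higher than all other lines of `F`,
  or strictly lower than all other lines of `F`,
* `Leaves a B F l`: above some `x`, the line `l` is strictly higher than all lines of `F`, or
  strictly lower than all lines of `F`,
* `SameSide a B x y i`: the lines that pass below the same points `(x t, y t)` as the line `i`.
-/

set_option autoImplicit false

open Finset

namespace Pool.Agent.Results.MP_a08d0a_co.ConvexFamilies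

open Pool.Agent.H189R2.Lev (ht)

open Pool.Agent.Results.MP_a08d0a_co.SmoothedLevel (Simple psi)

open Pool.Agent.TH511.HLC (OnEnvelope Leaves SameSide)

open scoped Classical in
/-- Let `n` lines be given, no two parallel and no three concurrent, and `k + k' + 1 = n`.
1. If `m` points `(x t, y t)` on none of the lines are such that each line appears on the upper or
on the lower envelope of the lines that pass below the same points as it does, then the `k`-level
and the `k'`-level together have at most `2 (2 m + 1) n` vertices.
2. If the lines are covered by `c` families such that each line of a family appears on the upper or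
on the lower envelope of the family, then they have together at most
`2 (n + 2 ∑ m_t) ≤ (4 c - 2) n` vertices, where `m_t` is the number of lines that leave the region
between the lower and the upper envelope of the family `t`. -/
theorem result : ∀ (n : ℕ) (a B : Fin n → ℝ), Function.Injective a → Simple a B →
    ∀ k k' : ℕ, k + k' + 1 = n →
    (∀ (m : ℕ) (x y : Fin m → ℝ), (∀ t l, ht a B l (x t) ≠ y t) →
      (∀ i, OnEnvelope a B (SameSide a B x y i) i) →
      psi a B k + psi a B k' ≤ ((2 * ((2 * m + 1) * n) : ℕ) : ℕ∞)) ∧
    (∀ (c : ℕ) (F : Fin c → Finset (Fin n)),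
      (∀ t, ∀ i ∈ F t, OnEnvelope a B (F t) i) → (∀ i, ∃ t, i ∈ F t) →
      psi a B k + psi a B k' ≤ ((2 * (n + 2 * ∑ t, #{l | Leaves a B (F t) l}) : ℕ) : ℕ∞) ∧
      psi a B k + psi a B k' + ((2 * n : ℕ) : ℕ∞) ≤ ((4 * c * n : ℕ) : ℕ∞)) :=
  fun _ _ _ ha hS _ _ hk =>
    ⟨fun _ x y hne hv => Pool.Agent.TH511.HLC.levels_cells ha hS x y hne hv hk,
      fun _ F hF hcov => ⟨Pool.Agent.TH511.HLC.levels_main ha hS F hF hcov hk,
        Pool.Agent.TH511.HLC.levels_main' ha hS F hF hcov hk⟩⟩

end Pool.Agent.Results.MP_a08d0a_co.ConvexFamilies
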