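import Pool.Agent.TH3.CH.Levels

/-!
# A level of high complexity forces a large envelope, for every partition of the lines

`Simple a B` (simple arrangement of the lines `y = a i * x + B i`) and `psi a B k` (number of
vertices of the `k`-level) are the definitions of the starting file
`Pool/Agent/Results/MP_a08d0a_co/SmoothedLevel.lean`; `OnLowerEnvelope` and `OnUpperEnvelope` are
defined in `Pool/Agent/TH3/CH/Levels.lean`.
-/

set_option autoImplicit false

namespace Pool.Agent.Results.MP_a08d0a_co.EnvelopePartition

open Finset
open Pool.Agent.Results.MP_a08d0a_co.SmoothedLevel (Simple psi)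
open Pool.Agent.TH3.CH.Lvl (OnLowerEnvelope OnUpperEnvelope)

/-- Let `n` lines form a simple arrangement, let every line belong to `U` or to `V`, and let the
`k`-level have more than `(2 k + 1) s + (2 (n - k) - 1) t` vertices. Then `U` contains `s + 1`
lines which all appear on their lower envelope or `V` contains `t + 1` lines which all appear on
their upper envelope. -/
theorem result (n : ℕ) (a B : Fin n → ℝ) (hS : Simple a B) (k : ℕ) (hk : k < n)
    (U V : Finset (Fin n)) (hUV : U ∪ V = univ) (s t : ℕ)
    (h : (((2 * k + 1) * s + (2 * (n - k) - 1) * t : ℕ) : ℕ∞) < psi a B k) :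
    (∃ T ⊆ U, s + 1 ≤ #T ∧ OnLowerEnvelope a B T) ∨
      (∃ T ⊆ V, t + 1 ≤ #T ∧ OnUpperEnvelope a B T) :=
  Pool.Agent.TH3.CH.Lvl.envelopes hS hk hUV h

end Pool.Agent.Results.MP_a08d0a_co.EnvelopePartition
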