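import Pool.Agent.TH124.KE.Lev
/-!
# A single level of an arrangement made of envelope lines and few other lines

The lines are `y = a l * x + B l`, `l : Fin n`. Definitions:

* `ht a B l x = a l * x + B l`, the height of the line `l` above `x`
  (`Pool/Agent/H189R2/Lev/Lines.lean`),
* `Simple a B`: no two of the lines coincide and no three pass through a common point;
  `level a B k x`: the height of the `(k+1)`-st lowest line above `x`; `psi a B k`: the number of
  abscissae near which the `k`-level does not follow a single line, i.e. the number of vertices of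
  the `k`-level (`Pool/Agent/Results/MP_a08d0a_co/SmoothedLevel.lean`),
* `OnEnv a B F i`: above some `x`, the line `i` is a highest line of `F` or a lowest line of `F`
  (`Pool/Agent/TH124/KE/Lev.lean`).
-/

set_option autoImplicit false

open Finset

namespace Pool.Agent.Results.MP_a08d0a_co.EnvelopesUpToFewLines

open Pool.Agent.Results.MP_a08d0a_co.SmoothedLevel (Simple psi)

open Pool.Agent.TH124.KE (OnEnv)

/-- Let `n` lines be given, no two parallel and no three concurrent, and `c` families of them such
that each line of a family is on the upper or on the lower envelope of its family. If `m` of the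
lines are in no family, then every `k`-level has at most
`8 c n + 14 m + 20 (m ^ 2 * min k (n - k) * n) ^ (1 / 3)` vertices. -/
theorem result : ∀ (n : ℕ) (a B : Fin n → ℝ), Function.Injective a → Simple a B → ∀ k < n,
    ∀ (c : ℕ) (F : Fin c → Finset (Fin n)), (∀ t, ∀ i ∈ F t, OnEnv a B (F t) i) →
    ∃ N : ℕ, psi a B k ≤ N ∧ (N : ℝ) ≤ 8 * c * n + 14 * #(univ \ univ.biUnion F) +
      20 * ((#(univ \ univ.biUnion F) : ℝ) ^ 2 * (min k (n - k) : ℕ) * n) ^ (1 / 3 : ℝ) :=
  fun _ _ _ ha hS _ hk _ F hF => Pool.Agent.TH124.KE.level_bound ha hS hk F hF

end Pool.Agent.Results.MP_a08d0a_co.EnvelopesUpToFewLines
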