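import Pool.Agent.TH529.RD.Vert

/-!
# How often few lines appear on a level of a line arrangement

Definitions (in `Pool/Agent/TH529/RD/Vert.lean`, namespace `Pool.Agent.TH529.RD`; a pair `l` is the
line `y = l.1 * x + l.2`):

* `height l x = l.1 * x + l.2`,
* `level Γ p`: the number of lines of `Γ` strictly below `p`,
* `kLevel Γ k`: the closure of the set of points that lie on a line of `Γ` and have level `k`,
* `IsVertex Γ k p`: the `k`-level passes at `p` from one line of `Γ` to another one,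
* `Simple Γ`: no three lines of `Γ` pass through a common point.
-/

set_option autoImplicit false

open Finset

namespace Pool.Agent.Results.MP_a08d0a_co.FewLines

open Pool.Agent.TH529.RD

theorem rpow_third {x : ℝ} (hx : 0 ≤ x) (k : ℕ) : (x ^ ((k : ℝ) / 3)) ^ 3 = x ^ k := by
  rw [← Real.rpow_natCast (x ^ ((k : ℝ) / 3)) 3, ← Real.rpow_mul hx]
  norm_num

/-- Let `Γ` be a set of lines, no three through a point.
1. Every set `A` of lines of `Γ` carries at most `40 |Γ| ^ (2/3) (|A| (k + 1)) ^ (1/3)` vertices of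
   the `k`-level.
2. At most `716 |Γ| (k + 1) ^ (1/2) / d ^ (3/2)` lines of `Γ` contain `d` or more vertices of the
   `k`-level. -/
theorem result :
    (∀ Γ : Finset (ℝ × ℝ), Simple Γ → ∀ A ⊆ Γ, ∀ k : ℕ,
      {p | IsVertex Γ k p ∧ ∃ l ∈ A, height l p.1 = p.2}.Finite ∧
      ({p | IsVertex Γ k p ∧ ∃ l ∈ A, height l p.1 = p.2}.ncard : ℝ) ≤
        40 * (#Γ : ℝ) ^ (2 / 3 : ℝ) * (#A * ((k : ℝ) + 1)) ^ (1 / 3 : ℝ)) ∧
    (∀ Γ : Finset (ℝ × ℝ), Simple Γ → ∀ k d : ℕ, 1 ≤ d →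
      (({l ∈ Γ | d ≤ {p | IsVertex Γ k p ∧ height l p.1 = p.2}.ncard}.card : ℕ) : ℝ) ≤
        716 * #Γ * ((k : ℝ) + 1) ^ (1 / 2 : ℝ) / (d : ℝ) ^ (3 / 2 : ℝ)) := by
  classical
  constructor
  · intro Γ hΓ A hA k
    obtain ⟨h1, h2⟩ := vertexSet_card hΓ k hA
    refine ⟨h1, ?_⟩
    have hn0 : (0 : ℝ) ≤ #Γ := Nat.cast_nonneg _
    have hA0 : (0 : ℝ) ≤ #A * ((k : ℝ) + 1) := by positivity
    have e1 : ((#Γ : ℝ) ^ (2 / 3 : ℝ)) ^ 3 = (#Γ : ℝ) ^ 2 := by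
      have := rpow_third hn0 2
      push_cast at this
      exact this
    have e2 : ((#A * ((k : ℝ) + 1)) ^ (1 / 3 : ℝ)) ^ 3 = #A * ((k : ℝ) + 1) := by
      have := rpow_third hA0 1
      push_cast at this
      rw [this, pow_one]
    have h0 : 0 ≤ 40 * (#Γ : ℝ) ^ (2 / 3 : ℝ) * (#A * ((k : ℝ) + 1)) ^ (1 / 3 : ℝ) := by
      have := Real.rpow_nonneg hn0 (2 / 3)
      have := Real.rpow_nonneg hA0 (1 / 3)
      positivity
    refine le_of_pow_le_pow_left₀ (n := 3) (by norm_num) h0 ?_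
    rw [mul_pow, mul_pow, e1, e2]
    calc _ ≤ 64000 * ((#Γ : ℝ) ^ 2 * (#A * (k + 1))) := h2
      _ = _ := by ring
  · intro Γ hΓ k d hd
    have h := rich_lines hΓ k d hd
    have e : ∀ l, vertexSet Γ k {l} = {p | IsVertex Γ k p ∧ height l p.1 = p.2} := by
      intro l
      unfold vertexSet
      ext p
      simp
    simp_rw [e] at h
    obtain ⟨a, ha⟩ : ∃ a : ℝ, a = (({l ∈ Γ | d ≤ {p | IsVertex Γ k p ∧
      height l p.1 = p.2}.ncard}.card : ℕ) : ℝ) := ⟨_, rfl⟩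
    rw [← ha] at h ⊢
    have ha0 : 0 ≤ a := by rw [ha]; exact Nat.cast_nonneg _
    have hd1 : (1 : ℝ) ≤ d := by exact_mod_cast hd
    have hd0 : (0 : ℝ) < d := by linarith
    have hn0 : (0 : ℝ) ≤ #Γ := Nat.cast_nonneg _
    have hk0 : (0 : ℝ) ≤ (k : ℝ) + 1 := by positivity
    have hpd : 0 < (d : ℝ) ^ (3 / 2 : ℝ) := Real.rpow_pos_of_pos hd0 _
    have hpk : 0 ≤ ((k : ℝ) + 1) ^ (1 / 2 : ℝ) := Real.rpow_nonneg hk0 _
    rw [le_div_iff₀ hpd]
    have e1 : ((d : ℝ) ^ (3 / 2 : ℝ)) ^ 2 = (d : ℝ) ^ 3 := by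
      rw [← Real.rpow_natCast ((d : ℝ) ^ (3 / 2 : ℝ)) 2, ← Real.rpow_mul hd0.le]
      norm_num
    have e2 : (((k : ℝ) + 1) ^ (1 / 2 : ℝ)) ^ 2 = (k : ℝ) + 1 := by
      rw [← Real.rpow_natCast (((k : ℝ) + 1) ^ (1 / 2 : ℝ)) 2, ← Real.rpow_mul hk0]
      norm_num
    refine le_of_pow_le_pow_left₀ (n := 2) (by norm_num) (by positivity) ?_
    rw [mul_pow, mul_pow, mul_pow, e1, e2]
    have h3 : (0 : ℝ) ≤ (#Γ : ℝ) ^ 2 * ((k : ℝ) + 1) := by positivity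
    nlinarith

end Pool.Agent.Results.MP_a08d0a_co.FewLines
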